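import Mathlib
import Pool.Agent.V11177.RigidTree

namespace Pool.Agent.Results.MP_edc67c_co.ExtraAutomorphism

open Pool.Agent.V11177.RigidTree

/-- all cells are allowed: `IsTab All l` says that `l` encodes a standard Young tableau -/
abbrev All : ℕ × ℕ → Prop := fun _ => True

/-- the shape of `T` is symmetric -/
def SymShape (T : List (ℕ × ℕ)) : Prop := ∀ c ∈ T, c.swap ∈ T

open Classical in
/-- The transpose automorphism `τ_T`: a descendant `S ++ T` of `T` is sent to `Sᵗ ++ T`, and every
other vertex is fixed. -/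
noncomputable def tau (T l : List (ℕ × ℕ)) : List (ℕ × ℕ) :=
  if T <:+ l then (l.take (l.length - T.length)).map Prod.swap ++ T else l

theorem tau_append (T S : List (ℕ × ℕ)) : tau T (S ++ T) = S.map Prod.swap ++ T := by
  unfold tau
  rw [if_pos (List.suffix_append S T)]
  congr 2
  rw [List.length_append, Nat.add_sub_cancel]
  exact List.take_left

/-- a transpose automorphism acts on the children of any vertex by the identity or by the
transposition of cells -/
theorem tau_cons (T l : List (ℕ × ℕ)) :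
    (∀ c, tau T (c :: l) = c :: tau T l) ∨ (∀ c, tau T (c :: l) = c.swap :: tau T l) := by
  by_cases h : T <:+ l
  · right
    intro c
    obtain ⟨S, rfl⟩ := h
    rw [show c :: (S ++ T) = (c :: S) ++ T from rfl, tau_append, tau_append]
    rfl
  · left
    intro c
    have h1 : tau T l = l := by unfold tau; rw [if_neg h]
    rw [h1]
    by_cases h2 : T <:+ c :: l
    · rcases List.suffix_cons_iff.1 h2 with h3 | h3
      · have := tau_append T []
        simp only [List.nil_append, List.map_nil] at this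
        rw [← h3]
        exact this
      · exact absurd h3 h
    · unfold tau
      rw [if_neg h2]

theorem comp_cons (Ts : List (List (ℕ × ℕ))) (l : List (ℕ × ℕ)) :
    (∀ c, Ts.foldr tau (c :: l) = c :: Ts.foldr tau l) ∨
      (∀ c, Ts.foldr tau (c :: l) = c.swap :: Ts.foldr tau l) := by
  induction Ts with
  | nil => left; intro c; rfl
  | cons T Ts ih =>
    simp only [List.foldr_cons]
    rcases tau_cons T (Ts.foldr tau l) with h | h <;> rcases ih with h' | h'
    · left; intro c; rw [h' c, h]
    · right; intro c; rw [h' c, h]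
    · right; intro c; rw [h' c, h]
    · left; intro c; rw [h' c, h, Prod.swap_swap]

/-- a tableau of shape `(3,2,1)` -/
def l0 : List (ℕ × ℕ) := [(2, 0), (1, 1), (1, 0), (0, 2), (0, 1), (0, 0)]

/-- descendants of the two outer children of `l0` -/
def Rg (l : List (ℕ × ℕ)) : Prop := ((0, 3) :: l0) <:+ l ∨ ((3, 0) :: l0) <:+ l

open Classical in
/-- the automorphism: transpose below the two outer children of `l0` -/
noncomputable def f : List (ℕ × ℕ) → List (ℕ × ℕ)
  | [] => []
  | c :: l => (if Rg (c :: l) then c.swap else c) :: f l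

theorem f_of_not {l : List (ℕ × ℕ)} (h : ¬ Rg l) : f l = l := by
  induction l with
  | nil => rfl
  | cons c l ih =>
    have h1 : ¬ Rg l := by
      rintro (h2 | h2)
      · exact h (Or.inl (h2.trans (List.suffix_cons c l)))
      · exact h (Or.inr (h2.trans (List.suffix_cons c l)))
    rw [f, if_neg h, ih h1]

theorem not_Rg_l0 : ¬ Rg l0 := by
  rintro (h | h)
  · have := h.length_le
    simp at this
  · have := h.length_le
    simp at this

theorem f_region (S : List (ℕ × ℕ)) (c0 : ℕ × ℕ) (hc : c0 = (0, 3) ∨ c0 = (3, 0)) :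
    Rg (S ++ c0 :: l0) ∧ f (S ++ c0 :: l0) = S.map Prod.swap ++ c0.swap :: l0 := by
  have hR : ∀ S : List (ℕ × ℕ), Rg (S ++ c0 :: l0) := by
    intro S
    rcases hc with rfl | rfl
    · exact Or.inl (List.suffix_append _ _)
    · exact Or.inr (List.suffix_append _ _)
  refine ⟨hR S, ?_⟩
  induction S with
  | nil =>
    have h := hR []
    rw [List.nil_append] at h ⊢
    rw [f, if_pos h, f_of_not not_Rg_l0]
    rfl
  | cons c S ih =>
    have h := hR (c :: S)
    rw [List.cons_append] at h ⊢
    rw [f, ih, if_pos h]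
    rfl

theorem cases_Rg {l : List (ℕ × ℕ)} (h : Rg l) :
    ∃ (S : List (ℕ × ℕ)) (c0 : ℕ × ℕ), (c0 = (0, 3) ∨ c0 = (3, 0)) ∧ l = S ++ c0 :: l0 := by
  rcases h with ⟨S, h⟩ | ⟨S, h⟩
  · exact ⟨S, _, Or.inl rfl, h.symm⟩
  · exact ⟨S, _, Or.inr rfl, h.symm⟩

theorem f_f (l : List (ℕ × ℕ)) : f (f l) = l := by
  by_cases h : Rg l
  · obtain ⟨S, c0, hc, rfl⟩ := cases_Rg h
    rw [(f_region S c0 hc).2]
    have hc' : c0.swap = (0, 3) ∨ c0.swap = (3, 0) := by
      rcases hc with rfl | rfl
      · right; rfl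
      · left; rfl
    rw [(f_region _ _ hc').2]
    simp
  · rw [f_of_not h, f_of_not h]

theorem sym_l0 : SymShape l0 := by
  unfold SymShape l0
  decide

theorem tab_swap (S : List (ℕ × ℕ)) (h : IsTab All (S ++ l0)) :
    IsTab All (S.map Prod.swap ++ l0) := by
  have hmem : ∀ (S : List (ℕ × ℕ)) (c : ℕ × ℕ), c ∈ S.map Prod.swap ++ l0 ↔ c.swap ∈ S ++ l0 := by
    intro S c
    rw [List.mem_append, List.mem_append]
    constructor
    · rintro (h | h)
      · obtain ⟨d, hd, rfl⟩ := List.mem_map.1 h
        left; rwa [Prod.swap_swap]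
      · right; exact sym_l0 _ h
    · rintro (h | h)
      · left
        exact List.mem_map.2 ⟨c.swap, h, Prod.swap_swap c⟩
      · right
        have := sym_l0 _ h
        rwa [Prod.swap_swap] at this
  induction S with
  | nil => exact h
  | cons c S ih =>
    obtain ⟨h1, _, h3, h4⟩ := h
    refine ⟨ih h1, trivial, ?_, ?_⟩
    · intro h5
      have := (hmem S c.swap).1 h5
      rw [Prod.swap_swap] at this
      exact h3 this
    · intro c' hle _ hne
      apply (hmem S c').2
      apply h4
      · have : c'.1 ≤ c.2 ∧ c'.2 ≤ c.1 := hle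
        exact ⟨this.2, this.1⟩
      · trivial
      · intro h5
        apply hne
        rw [← h5, Prod.swap_swap]

theorem f_tab {l : List (ℕ × ℕ)} (h : IsTab All l) : IsTab All (f l) := by
  by_cases hR : Rg l
  · obtain ⟨S, c0, hc, rfl⟩ := cases_Rg hR
    rw [(f_region S c0 hc).2]
    have h1 := tab_swap (S ++ [c0]) (by simpa using h)
    simpa using h1
  · rwa [f_of_not hR]

theorem f_adj {a b : List (ℕ × ℕ)} (h : ∃ c, b = c :: a) : ∃ c, f b = c :: f a := by
  obtain ⟨c, rfl⟩ := h
  exact ⟨_, rfl⟩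

/-- the automorphism -/
noncomputable def phi : tabTree All ≃g tabTree All where
  toFun a := ⟨f a.1, f_tab a.2⟩
  invFun a := ⟨f a.1, f_tab a.2⟩
  left_inv a := Subtype.ext (f_f a.1)
  right_inv a := Subtype.ext (f_f a.1)
  map_rel_iff' := by
    intro a b
    constructor
    · rintro (h | h)
      · left
        have := f_adj h
        simpa [f_f] using this
      · right
        have := f_adj h
        simpa [f_f] using this
    · rintro (h | h)
      · left; exact f_adj h
      · right; exact f_adj h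

theorem tab_l0 : IsTab All l0 := by
  have key : ∀ (c : ℕ × ℕ) (l : List (ℕ × ℕ)), c ∉ l →
      (∀ i ∈ Finset.range (c.1 + 1), ∀ j ∈ Finset.range (c.2 + 1), (i, j) ≠ c → (i, j) ∈ l) →
      IsTab All l → IsTab All (c :: l) := by
    intro c l h1 h2 h3
    refine ⟨h3, trivial, h1, ?_⟩
    intro c' hle _ hne
    exact h2 c'.1 (Finset.mem_range.2 (Nat.lt_succ_of_le hle.1)) c'.2
      (Finset.mem_range.2 (Nat.lt_succ_of_le hle.2)) hne
  unfold l0
  apply key _ _ (by decide) (by decide)
  apply key _ _ (by decide) (by decide)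
  apply key _ _ (by decide) (by decide)
  apply key _ _ (by decide) (by decide)
  apply key _ _ (by decide) (by decide)
  apply key _ _ (by decide) (by decide)
  trivial

theorem tab_child (c : ℕ × ℕ) (hc : c = (0, 3) ∨ c = (1, 2)) : IsTab All (c :: l0) := by
  refine ⟨tab_l0, trivial, ?_, ?_⟩
  · rcases hc with rfl | rfl <;> decide
  · intro c' hle _ hne
    have h2 : ∀ c : ℕ × ℕ, (c = (0, 3) ∨ c = (1, 2)) →
        ∀ i ∈ Finset.range (c.1 + 1), ∀ j ∈ Finset.range (c.2 + 1), (i, j) ≠ c → (i, j) ∈ l0 := by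
      rintro c (rfl | rfl) <;> decide
    exact h2 c hc c'.1 (Finset.mem_range.2 (Nat.lt_succ_of_le hle.1)) c'.2
      (Finset.mem_range.2 (Nat.lt_succ_of_le hle.2)) hne

/-- **Main theorem.** There is an automorphism `φ` of the tree `SYT` and an `N` such that no finite
composition of transpose automorphisms agrees with `φ` on all tableaux of size at most `N`. -/
theorem result : ∃ (φ : tabTree (fun _ => True) ≃g tabTree (fun _ => True)) (N : ℕ),
    ∀ Ts : List (List (ℕ × ℕ)), (∀ T ∈ Ts, IsTab (fun _ => True) T ∧ SymShape T) →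
      ∃ l : {l : List (ℕ × ℕ) // IsTab (fun _ => True) l},
        l.1.length ≤ N ∧ (φ l).1 ≠ Ts.foldr tau l.1 := by
  refine ⟨phi, 7, ?_⟩
  intro Ts _
  by_contra hcon
  push Not at hcon
  have hl0 := hcon ⟨l0, tab_l0⟩ (by simp [l0])
  have h1 := hcon ⟨(1, 2) :: l0, tab_child _ (Or.inr rfl)⟩ (by simp [l0])
  have h2 := hcon ⟨(0, 3) :: l0, tab_child _ (Or.inl rfl)⟩ (by simp [l0])
  have e0 : (phi ⟨l0, tab_l0⟩).1 = l0 := f_of_not not_Rg_l0
  have n1 : ¬ Rg ((1, 2) :: l0) := by
    unfold Rg l0
    decide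
  have e1 : (phi ⟨(1, 2) :: l0, tab_child _ (Or.inr rfl)⟩).1 = (1, 2) :: l0 := f_of_not n1
  have e2 : (phi ⟨(0, 3) :: l0, tab_child _ (Or.inl rfl)⟩).1 = (3, 0) :: l0 :=
    (f_region [] (0, 3) (Or.inl rfl)).2
  rw [e0] at hl0
  rw [e1] at h1
  rw [e2] at h2
  simp only at hl0 h1 h2
  rcases comp_cons Ts l0 with h | h
  · rw [h, ← hl0] at h2
    have := (List.cons.inj h2).1
    simp at this
  · rw [h, ← hl0] at h1
    have := (List.cons.inj h1).1
    simp at this

end Pool.Agent.Results.MP_edc67c_co.ExtraAutomorphism
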